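import Mathlib
import Pool.Agent.CGD.SphLim

/-!
# Rotationally symmetric metrics on spheres and projective spaces
-/

open Set Pool.Agent.CGD
open scoped ContDiff

namespace Pool.Agent.Results.MP_2ab3b9_gt.InvariantSpheres

/-- Let `k ≥ 2`, `n = dim V ≥ 2` and let `g = φ(z) (dz² + |dy|²) + ψ(z) dz²` be a metric of class
`C^k` on the unit sphere `S^n = {(z, y) ∈ ℝ × V : z² + |y|² = 1}` (invariant under the rotations of
`V`). Then `g` is a limit of metrics on `S^n` with dense closed geodesic directions; they may be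
chosen in a one parameter family of rotationally symmetric metrics through `g`, with a countable
set of exceptional parameters. If `φ` and `ψ` are even, the same holds on the projective space. -/
theorem result (k : ℕ∞) (hk : 2 ≤ k) (φ ψ : ℝ → ℝ) (hφ : ContDiff ℝ k φ) (hψ : ContDiff ℝ k ψ)
    (hφ0 : ∀ z ∈ Icc (-1 : ℝ) 1, 0 < φ z)
    (hψ0 : ∀ z ∈ Icc (-1 : ℝ) 1, 0 < φ z + (1 - z ^ 2) * ψ z) :
    (∃ E : Set ℝ, E.Countable ∧ ∀ s ∉ E, ∀ (V : Type) [NormedAddCommGroup V]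
      [InnerProductSpace ℝ V] [FiniteDimensional ℝ V], 2 ≤ Module.finrank ℝ V →
      DenseClosed (sphereN V) (sphForm φ (psiS φ ψ s)) ⊥) ∧
    ∀ (V : Type) [NormedAddCommGroup V] [InnerProductSpace ℝ V] [FiniteDimensional ℝ V],
      2 ≤ Module.finrank ℝ V →
      IsMetric k (sphereN V) ⊥ (sphForm φ ψ) ∧ IsLimit k (sphereN V) ⊥ (sphForm φ ψ) ∧
      ((∀ z, φ (-z) = φ z) → (∀ z, ψ (-z) = ψ z) →
        IsMetric k (sphereN V) (antiGroup V) (sphForm φ ψ) ∧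
        IsLimit k (sphereN V) (antiGroup V) (sphForm φ ψ)) := by
  have hk2 : (2 : WithTop ℕ∞) ≤ ((k : ℕ∞) : WithTop ℕ∞) := two_le_coe hk
  refine ⟨?_, fun V _ _ _ hV => ⟨sph_isMetric hφ hψ hφ0 hψ0, sph_limit hk hφ hψ hφ0 hψ0 hV,
    fun hφe hψe => ⟨sph_isMetric_anti hφ hψ hφ0 hψ0 hφe hψe,
      proj_limit hk hφ hψ hφ0 hψ0 hφe hψe hV⟩⟩⟩
  obtain ⟨E, hE, h⟩ := sph_dense.{0} (hφ.of_le hk2) (hψ.of_le hk2) hφ0 hψ0
  exact ⟨E, hE, fun s hs V _ _ _ hV => h s hs V (exists_perp hV)⟩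

end Pool.Agent.Results.MP_2ab3b9_gt.InvariantSpheres
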