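import Mathlib
import Pool.Agent.CGD.Conf

/-!
# Translation invariant metrics on tori and Klein bottles
-/

open Set Pool.Agent.CGD
open scoped ContDiff

namespace Pool.Agent.Results.MP_2ab3b9_gt.InvariantTori

/-- Let `k ≥ 2`. (1) Let `V / Λ` be a flat torus with the constant metric `h₀` and let `a, b > 0`
and `β` be `1`-periodic of class `C^k`. The metric `g = a(x) dx² + b(x) h₀(dy + β(x) dx)` on
`(ℝ / ℤ) × (V / Λ)` is a limit of metrics with dense closed geodesic directions; precisely, there is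
a countable set `B`, depending on `a`, `b` only, such that `(1 + s / b) g` has this property for
all `s ∉ B` with `b + s > 0`. (2) Every metric `g = E(x) dx² + 2 F(x) dx dy + G(x) dy²` of class
`C^k` on the torus `ℝ² / ℤ²` is such a limit, with the metrics `(1 + s / G) g`, and the same holds
on the Klein bottle (if `E`, `G` are even and `F` is odd). -/
theorem result (k : ℕ∞) (hk : 2 ≤ k) :
    (∀ a b : ℝ → ℝ, ContDiff ℝ k a → ContDiff ℝ k b → Function.Periodic a 1 →
      Function.Periodic b 1 → (∀ x, 0 < a x) → (∀ x, 0 < b x) →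
      ∃ B : Set ℝ, B.Countable ∧
        ∀ (V : Type) [NormedAddCommGroup V] [NormedSpace ℝ V] [CompleteSpace V] [Nontrivial V]
          (β : ℝ → V) (h₀ : V →L[ℝ] V →L[ℝ] ℝ) (Λ : AddSubgroup V),
          ContDiff ℝ k β → Function.Periodic β 1 → (∀ v w, h₀ v w = h₀ w v) →
          (∀ v, v ≠ 0 → 0 < h₀ v v) → Dense {v : V | ∃ n : ℕ, 0 < n ∧ n • v ∈ Λ} →
          (∀ s ∉ B, (∀ x, 0 < b x + s) →
            DenseClosed univ (fun p => (1 + s / b p.1) • shearForm a b β h₀ p)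
              (prodGroup (lattGroup Λ))) ∧
          IsMetric k univ (prodGroup (lattGroup Λ)) (shearForm a b β h₀) ∧
          IsLimit k univ (prodGroup (lattGroup Λ)) (shearForm a b β h₀)) ∧
    ∀ E F G : ℝ → ℝ, ContDiff ℝ k E → ContDiff ℝ k F → ContDiff ℝ k G → Function.Periodic E 1 →
      Function.Periodic F 1 → Function.Periodic G 1 → (∀ x, 0 < G x) →
      (∀ x, 0 < E x * G x - F x ^ 2) →
      (∃ B : Set ℝ, B.Countable ∧ ∀ s ∉ B, (∀ x, 0 < G x + s) →
        DenseClosed univ (fun p => (1 + s / G p.1) • planeForm E F G p) planeGroup) ∧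
      IsMetric k univ planeGroup (planeForm E F G) ∧
      IsLimit k univ planeGroup (planeForm E F G) ∧
      ((∀ x, E (-x) = E x) → (∀ x, F (-x) = -F x) → (∀ x, G (-x) = G x) →
        IsMetric k univ kleinGroup (planeForm E F G) ∧
        IsLimit k univ kleinGroup (planeForm E F G)) := by
  have hk2 : (2 : WithTop ℕ∞) ≤ ((k : ℕ∞) : WithTop ℕ∞) := two_le_coe hk
  refine ⟨fun a b ha hb hap hbp ha0 hb0 => ?_, fun E F G hE hF hG hEp hFp hGp hG0 hdet => ?_⟩
  · obtain ⟨B, hB, h⟩ := shear_dense.{0} (ha.of_le hk2) (hb.of_le hk2) hap hbp ha0 hb0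
    refine ⟨B, hB, fun V _ _ _ _ β h₀ Λ hβ hβp hsymm hpos hΛ => ⟨fun s hs hbs => ?_,
      shear_isMetric ha hb hβ hap hbp hβp ha0 hb0 hsymm hpos Λ,
      shear_limit hk ha hb hβ hap hbp hβp ha0 hb0 hsymm hpos hΛ⟩⟩
    rw [shear_conf hb0]
    exact h s hs hbs V β h₀ Λ (hβ.of_le ((by norm_num : (1 : WithTop ℕ∞) ≤ 2).trans hk2)) hβp
      hsymm hpos hΛ
  · obtain ⟨B, hB, h⟩ := plane_dense (hE.of_le hk2) (hF.of_le hk2) (hG.of_le hk2) hEp hFp hGp
      hG0 hdet
    obtain ⟨m, hm, hGm⟩ := per_pos hG.continuous hGp hG0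
    refine ⟨⟨B, hB, h⟩, plane_isMetric hE hF hG hEp hFp hGp hG0 hdet,
      plane_limit hk hE hF hG hEp hFp hGp hG0 hdet, fun hEe hFe hGe => ?_⟩
    have hkl := klein_isMetric hE hF hG hEp hFp hGp hG0 hdet hEe hFe hGe
    refine ⟨hkl, conf_limit plane_le_klein hkl (c := fun p : ℝ × ℝ => G p.1)
      (hG.comp contDiff_fst) hm (fun p => hGm p.1) ?_ hB
      (fun s hs hbs => h s hs fun x => hbs (x, 0))⟩
    rintro A ⟨m, n, ⟨hn, hA⟩ | ⟨hn, hA⟩⟩ p -
    · simp only [hA, coef_int hGp]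
    · simp only [hA, coef_int hGp, hGe]

end Pool.Agent.Results.MP_2ab3b9_gt.InvariantTori
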