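import Mathlib
import Pool.Agent.CGD.NestLim

/-!
# Iterated warped products on tori
-/

open Set Pool.Agent.CGD
open scoped ContDiff

namespace Pool.Agent.Results.MP_2ab3b9_gt.IteratedTori

/-- Let `n ≥ 1`, `k ≥ 2` and let `a₁, b₁, ..., aₙ, bₙ` be positive functions of class `C^k` on the
circle. Then the metric `a₁(x₁) dx₁² + b₁(x₁) (a₂(x₂) dx₂² + b₂(x₂) (a₃(x₃) dx₃² + ...))` on the
torus `ℝⁿ / ℤⁿ` is a limit of metrics, of the same form, with dense closed geodesic directions: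
there are countable sets `B₁, ..., Bₙ` of numbers such that the metric with the coefficients
`shA a b s i = aᵢ (bᵢ + sᵢ) / bᵢ` and `shB b s i = bᵢ + sᵢ` has this property if `sᵢ ∉ Bᵢ` and
`bᵢ + sᵢ > 0` for all `i`. -/
theorem result (k : ℕ∞) (hk : 2 ≤ k) (n : ℕ) (a b : Fin (n + 1) → ℝ → ℝ)
    (ha : ∀ i, ContDiff ℝ k (a i)) (hb : ∀ i, ContDiff ℝ k (b i))
    (hap : ∀ i, Function.Periodic (a i) 1) (hbp : ∀ i, Function.Periodic (b i) 1)
    (ha0 : ∀ i x, 0 < a i x) (hb0 : ∀ i x, 0 < b i x) :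
    (∃ B : Fin (n + 1) → Set ℝ, (∀ i, (B i).Countable) ∧ ∀ s : Fin (n + 1) → ℝ,
      (∀ i, s i ∉ B i) → (∀ i x, 0 < b i x + s i) →
      TorusDense (nested (shA a b s) (shB b s))) ∧
    TorusMetric k (nested a b) ∧ TorusLimit k (nested a b) := by
  have hk2 : (2 : WithTop ℕ∞) ≤ ((k : ℕ∞) : WithTop ℕ∞) := two_le_coe hk
  exact ⟨nested_dense n (fun i => (ha i).of_le hk2) (fun i => (hb i).of_le hk2) hap hbp ha0 hb0,
    nested_isMetric ha hb hap hbp ha0 hb0, nested_limit hk n ha hb hap hbp ha0 hb0⟩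

end Pool.Agent.Results.MP_2ab3b9_gt.IteratedTori
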