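import Mathlib
import Pool.Agent.CGD.Conf

/-!
# Warped products over the circle are limits of metrics with dense closed geodesic directions
-/

open Set Pool.Agent.CGD
open scoped ContDiff

namespace Pool.Agent.Results.MP_2ab3b9_gt.WarpedProducts

/-- Let `a`, `b` be positive functions of class `C^k` (`k ≥ 2`) on the circle. (1) There is a
countable set `B` of numbers, depending on `a` and `b` only, such that for all other `s` with
`b + s > 0` and for every manifold `N / Γ` with a metric `h` of class `C^k` whose closed geodesic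
directions are dense, the closed geodesic directions of the metric `(1 + s / b) g`, conformal to
the warped product `g = a dx² + b h` on `(ℝ / ℤ) × (N / Γ)`, are dense. (2) If `h` is a limit of
metrics with dense closed geodesic directions then so is `g`. -/
theorem result (k : ℕ∞) (hk : 2 ≤ k) (a b : ℝ → ℝ) (ha : ContDiff ℝ k a) (hb : ContDiff ℝ k b)
    (hap : Function.Periodic a 1) (hbp : Function.Periodic b 1) (ha0 : ∀ x, 0 < a x)
    (hb0 : ∀ x, 0 < b x) :
    (∃ B : Set ℝ, B.Countable ∧ ∀ s ∉ B, (∀ x, 0 < b x + s) →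
      ∀ (F : Type) [NormedAddCommGroup F] [NormedSpace ℝ F] (N : Set F)
        (Γ : Subgroup (Equiv.Perm F)) (h : F → F →L[ℝ] F →L[ℝ] ℝ),
        (∀ y ∈ N, ∃ v ∈ tangentConeAt ℝ N y, v ≠ 0) → IsMetric k N Γ h → DenseClosed N h Γ →
        DenseClosed (univ ×ˢ N) (fun p => (1 + s / b p.1) • warp a b h p) (prodGroup Γ)) ∧
    ∀ (F : Type) [NormedAddCommGroup F] [NormedSpace ℝ F] (N : Set F)
      (Γ : Subgroup (Equiv.Perm F)) (h : F → F →L[ℝ] F →L[ℝ] ℝ),
      (∀ y ∈ N, ∃ v ∈ tangentConeAt ℝ N y, v ≠ 0) → IsMetric k N Γ h → IsLimit k N Γ h →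
        IsMetric k (univ ×ˢ N) (prodGroup Γ) (warp a b h) ∧
          IsLimit k (univ ×ˢ N) (prodGroup Γ) (warp a b h) := by
  have hk2 : (2 : WithTop ℕ∞) ≤ ((k : ℕ∞) : WithTop ℕ∞) := two_le_coe hk
  have hk1 : (1 : WithTop ℕ∞) ≤ ((k : ℕ∞) : WithTop ℕ∞) := (by norm_num :
    (1 : WithTop ℕ∞) ≤ 2).trans hk2
  refine ⟨?_, fun F _ _ N Γ h hN hh hlim => ⟨warp_isMetric ha hb hap hbp ha0 hb0 hh,
    warp_limit hk ha hb hap hbp ha0 hb0 hh.smooth hN hlim⟩⟩
  obtain ⟨B, hB, hdense⟩ := warp_dense.{0} (ha.of_le hk2) (hb.of_le hk2) hap hbp ha0 hb0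
  refine ⟨B, hB, fun s hsB hbs F _ _ N Γ h hN hh hD => ?_⟩
  rw [warp_conf hb0]
  exact hdense s hsB hbs F N h Γ (hh.smooth.of_le hk1) hh.pos hN hD

end Pool.Agent.Results.MP_2ab3b9_gt.WarpedProducts
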